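import Pool.Agent.W842.BV.Stms

/-!
Codegrees are less than `s`.
-/

set_option autoImplicit false

namespace Pool.Agent.W45.BV

open Finset Pool.Agent.W842.BV

theorem t_COD : S_COD := by
  intro hE n s H hs hn hH b w hbw
  by_contra hcon
  push Not at hcon
  obtain ⟨T, hT, hTs⟩ := exists_subset_card_eq hcon
  have hTH : T ⊆ H := hT.trans (filter_subset _ _)
  have h1 := hE n s H hn hH T hTH hTs.ge
  have h2 : (T.biUnion id).card ≤ s + 2 := by
    have hsub : T.biUnion id ⊆ {b, w} ∪ T.biUnion (fun e => (e.erase b).erase w) := by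
      intro x hx
      rw [mem_biUnion] at hx
      obtain ⟨e, he, hxe⟩ := hx
      rw [mem_union, mem_insert, mem_singleton]
      by_cases hxb : x = b
      · exact Or.inl (Or.inl hxb)
      by_cases hxw : x = w
      · exact Or.inl (Or.inr hxw)
      right
      rw [mem_biUnion]
      exact ⟨e, he, mem_erase.2 ⟨hxw, mem_erase.2 ⟨hxb, hxe⟩⟩⟩
    have h3 : (T.biUnion (fun e => (e.erase b).erase w)).card ≤ T.card * 1 := by
      refine card_biUnion_le_card_mul _ _ _ fun e he => ?_
      have h4 := hT he
      rw [mem_filter] at h4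
      have h5 := hH.1 e h4.1
      rw [card_erase_of_mem (mem_erase.2 ⟨hbw.symm, h4.2.2⟩), card_erase_of_mem h4.2.1, h5]
    have h6 := card_le_card hsub
    have h7 := card_union_le {b, w} (T.biUnion (fun e => (e.erase b).erase w))
    have h8 : ({b, w} : Finset (Fin n)).card ≤ 2 := card_le_two
    omega
  omega

end Pool.Agent.W45.BV
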